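import Pool.Agent.H114.RS.Pow2

/-!
# Long monochromatic progressions in the Rudin–Shapiro sequence

For every `k ≥ 5`: all differences `1 ≤ d ≤ 2 ^ k - 2` have monochromatic progressions of at most
`2 ^ (k - 1)` terms, and for `d = 2 ^ k - 1` the maximal number of terms is `2 ^ (k - 1) + 1` for even
`k` and `2 ^ (k - 1) + 3` for odd `k`.
-/

set_option autoImplicit false

namespace Pool.Agent.Results.MP_fa909a_co.LongProgressions

/-- `e_11 (n)`: the number of (possibly overlapping) occurrences of the block `11` in the binary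
expansion of `n`, i.e. the number of pairs of adjacent binary digits of `n` which are both `1`. -/
def e11 (n : ℕ) : ℕ := ((Nat.digits 2 n).zip (Nat.digits 2 n).tail).count (1, 1)

/-- The Rudin–Shapiro sequence `r_n = e_11 (n) mod 2`. -/
def rs (n : ℕ) : ℕ := e11 n % 2

/-- The `l` terms `r_n, r_{n+d}, …, r_{n+(l-1)d}` are equal. -/
def Mono (n d l : ℕ) : Prop := ∀ j < l, rs (n + j * d) = rs n

/-- `A_r (n, d)`: the largest number of terms of a monochromatic progression of difference `d`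
starting at `n` (in `ℕ ∪ {∞}`). -/
noncomputable def lenAt (n d : ℕ) : ℕ∞ := ⨆ (l : ℕ) (_ : Mono n d l), (l : ℕ∞)

/-- `A_r (d) = sup_n A_r (n, d)` (in `ℕ ∪ {∞}`). -/
noncomputable def maxLen (d : ℕ) : ℕ∞ := ⨆ n : ℕ, lenAt n d

lemma mono_iff (n d l : ℕ) : Mono n d l ↔ Pool.Agent.H114.RS.Mono n d l := by
  unfold Mono Pool.Agent.H114.RS.Mono
  exact forall₂_congr fun j _ => Pool.Agent.H114.RS.mod_eq_iff_rb _ _

lemma maxLen_le {d D : ℕ} (h : ∀ n, ¬ Pool.Agent.H114.RS.Mono n d (D + 1)) :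
    maxLen d ≤ (D : ℕ∞) := by
  refine iSup_le fun n => iSup₂_le fun l hl => ?_
  rw [mono_iff] at hl
  by_contra hcon
  rw [Nat.cast_le] at hcon
  exact h n (hl.le (by omega))

lemma le_maxLen {n d l : ℕ} (h : Pool.Agent.H114.RS.Mono n d l) : (l : ℕ∞) ≤ maxLen d := by
  rw [← mono_iff] at h
  have h4 : (l : ℕ∞) ≤ lenAt n d :=
    le_iSup₂ (f := fun (l : ℕ) (_ : Mono n d l) => (l : ℕ∞)) l h
  exact h4.trans (le_iSup (fun n => lenAt n d) n)

/-- **Question 1.** -/
theorem result (k : ℕ) (hk : 5 ≤ k) :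
    (∀ d : ℕ, 1 ≤ d → d ≤ 2 ^ k - 2 → maxLen d ≤ 2 ^ (k - 1)) ∧
    maxLen (2 ^ k - 1) = if Even k then 2 ^ (k - 1) + 1 else 2 ^ (k - 1) + 3 := by
  constructor
  · intro d h1 h2
    have := maxLen_le (d := d) (D := 2 ^ (k - 1)) (Pool.Agent.H114.RS.bound k hk d h1 h2)
    rwa [Nat.cast_pow, Nat.cast_ofNat] at this
  · obtain ⟨m, rfl⟩ : ∃ m, k = m + 1 := ⟨k - 1, by omega⟩
    rw [Nat.add_sub_cancel]
    by_cases he : Even (m + 1)
    · rw [if_pos he]
      have hm : m % 2 = 1 := by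
        have := Nat.even_iff.1 he
        omega
      have e : ((2 ^ m + 1 : ℕ) : ℕ∞) = 2 ^ m + 1 := by push_cast; rfl
      rw [← e]
      exact le_antisymm
        (maxLen_le fun n => Pool.Agent.H114.RS.pow_upper_even (by omega) hm)
        (le_maxLen (Pool.Agent.H114.RS.pow_lower_even (by omega)))
    · rw [if_neg he]
      have hm : m % 2 = 0 := by
        rw [Nat.even_iff] at he
        omega
      have e : ((2 ^ m + 3 : ℕ) : ℕ∞) = 2 ^ m + 3 := by push_cast; rfl
      rw [← e]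
      exact le_antisymm
        (maxLen_le fun n => Pool.Agent.H114.RS.pow_upper_odd (by omega) hm)
        (le_maxLen (Pool.Agent.H114.RS.pow_lower_odd (by omega) hm))

end Pool.Agent.Results.MP_fa909a_co.LongProgressions
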